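import Mathlib

namespace Pool.Agent.Results.MP_e9a5a5_pr.Holds
open MeasureTheory ProbabilityTheory Filter Topology Real

/-- averaging over a uniform `±1` step -/
noncomputable def avg (F : ℝ → ℝ) (x : ℝ) : ℝ := (F (x - 1) + F (x + 1)) / 2
/-- one max step -/
noncomputable def Φ (F : ℝ → ℝ) (x : ℝ) : ℝ := avg F x ^ 2
/-- one min step -/
noncomputable def Φ' (F : ℝ → ℝ) (x : ℝ) : ℝ := 1 - (1 - avg F x) ^ 2

theorem result (P : Measure ℝ) [IsProbabilityMeasure P] (F : ℝ → ℝ)
    (hF : ∀ x, F x = P.real (Set.Iic x)) (h : Φ (Φ' F) = F) (x : ℝ) :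
    F (x + 2) = 2 * √(F x) - F x := by
  have e : F = cdf P := funext fun x => (hF x).trans (cdf_eq_real P x).symm
  have F0 : ∀ x, 0 ≤ F x := fun x => e ▸ cdf_nonneg P x
  have F1 : ∀ x, F x ≤ 1 := fun x => e ▸ cdf_le_one P x
  have T : Tendsto F atTop (𝓝 1) := e ▸ tendsto_cdf_atTop P
  let p : ℝ → ℝ := fun x => (F x + F (x + 2)) / 2
  have p0 : ∀ x, 0 ≤ p x := fun x => by simp only [p]; linarith [F0 x, F0 (x + 2)]
  have p1 : ∀ x, p x ≤ 1 := fun x => by simp only [p]; linarith [F1 x, F1 (x + 2)]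
  have key : ∀ x, (p (x + 2) - √(F (x + 2))) * (2 - p (x + 2) - √(F (x + 2))) =
      (p x - √(F x)) * (√(F x) + p x) := fun x => by
    have h1 : √(F (x + 2)) = 1 - (1 - p x) ^ 2 / 2 - (1 - p (x + 2)) ^ 2 / 2 := by
      rw [← congrFun h (x + 2), Φ, sqrt_sq_eq_abs, ← abs_of_nonneg (a := 1 - _ - _)
        (by nlinarith [p0 x, p1 x, p0 (x + 2), p1 (x + 2)])]
      simp only [avg, Φ', p]
      congr 1; ring_nf
    have h2 := sq_sqrt (F0 x)
    have h3 := sq_sqrt (F0 (x + 2))
    have h4 : F (x + 2) = 2 * p x - F x := by simp only [p]; ring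
    nlinarith
  let d : ℕ → ℝ := fun n => p (x + 2 * n) - √(F (x + 2 * n))
  have kd : ∀ n : ℕ, d (n + 1) * (2 - p (x + 2 * n + 2) - √(F (x + 2 * n + 2))) =
      d n * (√(F (x + 2 * n)) + p (x + 2 * n)) := fun n => by
    rw [← key]; simp only [d]; push_cast; ring_nf
  have t0 : Tendsto (fun n : ℕ => x + 2 * n) atTop atTop :=
    tendsto_atTop_add_const_left _ _ (tendsto_natCast_atTop_atTop.const_mul_atTop two_pos)
  have tp : Tendsto p atTop (𝓝 1) := by
    simpa using (T.add (T.comp (tendsto_atTop_add_const_right _ 2 tendsto_id))).div_const 2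
  have ts : Tendsto (fun x => √(F x)) atTop (𝓝 1) := by simpa using T.sqrt
  have td : Tendsto (fun n => |d n|) atTop (𝓝 0) := by simpa using ((tp.sub ts).comp t0).abs
  by_contra hx
  have nz : ∀ n, d n ≠ 0 := fun n => by
    induction n with
    | zero => exact fun h0 => hx (by simp only [d, p] at h0; simp at h0; linarith)
    | succ n ih =>
      intro h0
      have := kd n
      rw [h0, zero_mul, eq_comm, mul_eq_zero] at this
      refine ih (this.elim id fun h => ?_)
      simp only [d]; linarith [sqrt_nonneg (F (x + 2 * n)), p0 (x + 2 * n)]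
  obtain ⟨a, ha⟩ := eventually_atTop.1 ((tp.add ts).eventually (lt_mem_nhds
    (show (1 : ℝ) < 1 + 1 by norm_num)))
  obtain ⟨N, hN⟩ := eventually_atTop.1 (t0.eventually_ge_atTop a)
  have mono : ∀ n, N ≤ n → |d N| ≤ |d n| := fun n hn => by
    induction n, hn using Nat.le_induction with
    | base => rfl
    | succ n hn ih =>
      have h1 := congrArg abs (kd n)
      have h2 := ha _ (hN n hn)
      have h3 := ha (x + 2 * n + 2) (by linarith [hN n hn])
      have h4 := sqrt_le_one.2 (F1 (x + 2 * n + 2))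
      rw [abs_mul, abs_mul, abs_of_nonneg (a := 2 - _ - _) (by linarith [p1 (x + 2 * n + 2)]),
        abs_of_nonneg (a := _ + _) (by linarith)] at h1
      nlinarith [abs_nonneg (d n), abs_nonneg (d (n + 1))]
  exact (abs_pos.2 (nz N)).not_ge (ge_of_tendsto td (eventually_atTop.2 ⟨N, mono⟩))

end Pool.Agent.Results.MP_e9a5a5_pr.Holds
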